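import Pool.Agent.Y116.BS.Cplx

/-!
# The Beilinson–Soulé vanishing conjecture for complex varieties and rational function fields

Let `H^i(X, ℚ(n))` be rational motivic cohomology, in the form of its known formal properties
(`IsMotivicCohomology`), and let `V` be a class of smooth separated complex schemes of finite type which
contains the point `Spec ℂ`, for example the smooth projective varieties over `ℂ`.

The vanishing `H^i(X, ℚ(n)) = 0` for all `X` in `V`, all `i < 0` and all `n` is equivalent to

* the vanishing of `H^0(ℚ(t_1, …, t_r), ℚ(n)) = K_{2n}(ℚ(t_1, …, t_r))_ℚ^{(n)}` for all `r` and all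
  `n ≥ 1` (one degree only);
* the vanishing of `H^{-1}(ℂ, ℚ(n))` for all `n`;
* the vanishing of `H^i(X, ℚ(n))`, `i < 0`, for all smooth separated schemes `X` of finite type
  over fields of characteristic zero.
-/

set_option autoImplicit false

open CategoryTheory AlgebraicGeometry

namespace Pool.Agent.Results.MP_d72c81_ag.RationalFunctionFields

open Pool.Agent.Y116.BS

theorem result (M : MotivicCohomology) (hM : IsMotivicCohomology M)
    (V : ∀ X : Scheme.{0}, (X ⟶ pt ℂ) → Prop) (hV : ∀ X f, V X f → Sm f)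
    (h0 : V (pt ℂ) (𝟙 _)) :
    -- the degree zero for the rational function fields over `ℚ`
    ((∀ X f, V X f → ∀ (i : ℤ) (n : ℕ), i < 0 → Van M X i n) ↔
      ∀ r n : ℕ, 1 ≤ n → Van M (pt (Rat' ℚ r)) 0 n) ∧
    -- the degree `-1` for `ℂ`
    ((∀ X f, V X f → ∀ (i : ℤ) (n : ℕ), i < 0 → Van M X i n) ↔
      ∀ n : ℕ, Van M (pt ℂ) (-1) n) ∧
    -- all smooth schemes over fields of characteristic zero
    ((∀ X f, V X f → ∀ (i : ℤ) (n : ℕ), i < 0 → Van M X i n) ↔
      ∀ (k : Type) [Field k] [CharZero k] (X : Scheme.{0}) (f : X ⟶ pt k), Sm f →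
        ∀ (i : ℤ) (n : ℕ), i < 0 → Van M X i n) :=
  weak hM V hV h0

end Pool.Agent.Results.MP_d72c81_ag.RationalFunctionFields
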